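import Pool.Agent.Helper9.Sym.Atoms
import Pool.Agent.Helper73.Sym.Omega

/-!
The generic models as instances of the classes `IsZF` and `StdZF`; the model with atoms.
-/

namespace Pool.Agent.Helper9.Sym

open Equiv

/-- translation of formulas -/
def tr : Helper73.Sym.Fml → Fm
  | .mem i j => .mem i j
  | .eq i j => .eq i j
  | .bot => .neg (.eq 0 0)
  | .imp φ ψ => .imp (tr φ) (tr ψ)
  | .all φ => .all (tr φ)

theorem cons_eq {M : Type*} (x : M) (v : ℕ → M) : cons x v = Helper73.Sym.cons x v := by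
  funext n; cases n <;> rfl

theorem sat_tr {M : Type*} [Membership M M] (φ : Helper73.Sym.Fml) (v : ℕ → M) :
    (tr φ).Sat (fun x y => x ∈ y) v ↔ Helper73.Sym.Sat φ v := by
  induction φ generalizing v with
  | mem i j => exact Iff.rfl
  | eq i j => exact Iff.rfl
  | bot => exact ⟨fun h => h rfl, fun h => h.elim⟩
  | imp φ ψ h1 h2 =>
    rw [tr, sat_imp, h1, h2]
    rfl
  | all φ ih =>
    show (∀ x, (tr φ).Sat _ (cons x v)) ↔ ∀ x, Helper73.Sym.Sat φ (Helper73.Sym.cons x v)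
    refine forall_congr' fun x => ?_
    rw [ih, cons_eq]

theorem isZF_tr {M : Type*} [Membership M M] (h : IsZF (fun x y : M => x ∈ y)) :
    Helper73.Sym.IsZF M where
  ext := h.extensionality
  pair := h.pairing
  union := h.union
  power := h.powerset
  infinity := by
    obtain ⟨w, ⟨e, h1, h2⟩, h3⟩ := h.infinity
    exact ⟨w, ⟨e, h2, h1⟩, h3⟩
  foundation := h.foundation
  separation := by
    intro φ v x
    obtain ⟨y, hy⟩ := h.separation (tr φ) v x
    refine ⟨y, fun z => ?_⟩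
    rw [hy, sat_tr, cons_eq]
  replacement := by
    intro φ v x hx
    obtain ⟨y, hy⟩ := h.replacement (tr φ) v x (by
      intro z hz
      obtain ⟨w, h1, h2⟩ := hx z hz
      refine ⟨w, ?_, fun w' hw' => h2 w' ?_⟩
      · simpa only [sat_tr, cons_eq] using h1
      · simpa only [sat_tr, cons_eq] using hw')
    refine ⟨y, fun w => ?_⟩
    rw [hy]
    simp only [sat_tr, cons_eq]

/-- **The model with atoms.** -/
theorem exists_atoms_model : ∃ (M : Type 1) (_ : Membership M M), Helper73.Sym.StdZF M ∧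
    WellFounded (fun x y : M => x ∈ y) ∧
    ∃ (at' : ℕ → M) (A : Finset ℕ → M) (Supp : Finset ℕ → M → Prop),
      Function.Injective at' ∧ (∀ E x, x ∈ A E ↔ ∃ i, i ∉ E ∧ x = at' i) ∧
      (∀ x, ∃ E, Supp E x) ∧ (∀ E E' x, E ⊆ E' → Supp E x → Supp E' x) ∧
      ∀ (E : Finset ℕ) (π : Perm ℕ), (∀ i ∈ E, π i = i) →
        ∀ (φ : Helper73.Sym.Fml) (v w : ℕ → M),
        (∀ n, (v n = w n ∧ Supp E (v n)) ∨ ∃ i, v n = at' i ∧ w n = at' (π i)) →
        Helper73.Sym.Sat φ v → Helper73.Sym.Sat φ w := by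
  obtain ⟨X, G, hc, hG, hchk, homg, hat, hA⟩ := exists_model
  have hzf := isZF_Ep (hG := hG) hc hchk homg
  refine ⟨Mod hG, ⟨fun y x => Ep hG x y⟩, ?_, wf_Ep hG, fun i => vl hG ⟨_, hat i⟩,
    fun E => vl hG ⟨_, hA E⟩, Supp, ?_, ?_, exists_supp, fun E E' x h hx => hx.mono h, ?_⟩
  · let _ : Membership (Mod hG) (Mod hG) := ⟨fun y x => Ep hG x y⟩
    have : Helper73.Sym.IsZF (Mod hG) := isZF_tr hzf
    refine ⟨fun n => vl hG ⟨chk n, hchk n⟩, vl hG ⟨omg, homg⟩, ?_, ?_, ?_⟩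
    · intro z hz
      obtain ⟨m, hm, -⟩ := (Ep_chk hchk 0 z).1 hz
      omega
    · intro n z
      show Ep hG z _ ↔ Ep hG z _ ∨ _
      rw [Ep_chk, Ep_chk]
      constructor
      · rintro ⟨m, hm, rfl⟩
        rcases Nat.lt_succ_iff_lt_or_eq.1 hm with h | rfl
        · exact Or.inl ⟨m, h, rfl⟩
        · exact Or.inr rfl
      · rintro (⟨m, hm, rfl⟩ | rfl)
        · exact ⟨m, by omega, rfl⟩
        · exact ⟨n, by omega, rfl⟩
    · exact Ep_omg hchk homg
  · intro i j hij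
    by_contra hne
    obtain ⟨p, -, hp⟩ := vl_eq.1 hij
    exact not_eqF_atN hne p hp
  · intro E x
    show Ep hG x _ ↔ _
    constructor
    · intro h
      obtain ⟨j, hj, -, rfl⟩ := mem_cst hG h
      exact ⟨j.1, j.2, rfl⟩
    · rintro ⟨i, hi, rfl⟩
      exact Ep_iff.2 ⟨⊤, hG.top, fun q _ => ⟨q, le_rfl, ⟨i, hi⟩, le_top, Name.eqF_refl _ _⟩⟩
  · intro E π hπ φ v w hvw hv
    let _ : Membership (Mod hG) (Mod hG) := ⟨fun y x => Ep hG x y⟩
    rw [← sat_tr] at hv ⊢
    exact invariance hc hat hπ (tr φ) v w hvw hv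

end Pool.Agent.Helper9.Sym
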