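import Pool.Agent.Helper9.Sym.Ops

/-!
Countable generic models: the truth lemma and the axioms of ZF.
-/

namespace Pool.Agent.Helper9.Sym

deriving instance Countable for Fm

/-! ### renaming of variables -/

/-- lift of a renaming under a binder -/
def lift (f : ℕ → ℕ) : ℕ → ℕ
  | 0 => 0
  | n + 1 => f n + 1

/-- renaming of variables -/
def Fm.ren : (ℕ → ℕ) → Fm → Fm
  | f, .mem i j => .mem (f i) (f j)
  | f, .eq i j => .eq (f i) (f j)
  | f, .neg φ => .neg (φ.ren f)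
  | f, .and φ ψ => .and (φ.ren f) (ψ.ren f)
  | f, .all φ => .all (φ.ren (lift f))

theorem sat_ren {M : Type*} {E : M → M → Prop} (φ : Fm) (f : ℕ → ℕ) (v : ℕ → M) :
    (φ.ren f).Sat E v ↔ φ.Sat E (fun n => v (f n)) := by
  induction φ generalizing f v with
  | mem i j => rfl
  | eq i j => rfl
  | neg φ ih => exact not_congr (ih f v)
  | and φ ψ h₁ h₂ => exact and_congr (h₁ f v) (h₂ f v)
  | all φ ih =>
    refine forall_congr' fun x => ?_
    rw [ih]
    have : (fun n => cons x v (lift f n)) = cons x (fun n => v (f n)) := by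
      funext n
      cases n <;> rfl
    rw [this]

theorem cons_comp {M N : Type*} (h : M → N) (x : M) (v : ℕ → M) :
    (fun n => h (cons x v n)) = cons (h x) (fun n => h (v n)) := by
  funext n; cases n <;> rfl

/-! ### closed countable sets of names -/

variable {P : Type} [PartialOrder P] [OrderTop P] {Gr : Type} [Group Gr] [OrderAct P Gr]
  {F : NFilter Gr}

/-- assignment given by a list -/
def asg (l : List (HSN P F)) : ℕ → HSN P F := fun n => l.getD n emp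

omit [OrderTop P] in
theorem asg_cons (x : HSN P F) (l : List (HSN P F)) : asg (x :: l) = cons x (asg l) := by
  funext n
  cases n with
  | zero => rfl
  | succ n => simp [asg, cons]

omit [OrderTop P] in
theorem asg_mem {X : Set (HSN P F)} (h0 : emp ∈ X) {l : List (HSN P F)} (hl : ∀ x ∈ l, x ∈ X)
    (n : ℕ) : asg l n ∈ X := by
  unfold asg
  rcases Nat.lt_or_ge n l.length with h | h
  · rw [List.getD_eq_getElem _ _ h]
    exact hl _ (List.getElem_mem h)
  · rw [List.getD_eq_default _ _ h]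
    exact h0

/-- initial segment of an assignment as a list -/
def ini (v : ℕ → HSN P F) (n : ℕ) : List (HSN P F) := (List.range n).map v

omit [OrderTop P] in
theorem asg_ini (v : ℕ → HSN P F) {n m : ℕ} (h : m < n) : asg (ini v n) m = v m := by
  unfold asg ini
  rw [List.getD_eq_getElem _ _ (by simpa using h)]
  simp

omit [OrderTop P] in
theorem ini_mem {X : Set (HSN P F)} {v : ℕ → HSN P F} (hv : ∀ n, v n ∈ X) (n : ℕ) :
    ∀ x ∈ ini v n, x ∈ X := by
  intro x hx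
  unfold ini at hx
  rw [List.mem_map] at hx
  obtain ⟨m, -, rfl⟩ := hx
  exact hv m

/-- the operations under which the set of names is closed -/
noncomputable def step (c : ℕ × Fm × P) (l : List (HSN P F)) : HSN P F :=
  match c.1 with
  | 0 => wit c.2.1 (asg l) c.2.2
  | 1 => pr (asg l 0) (asg l 1)
  | 2 => un (asg l 0)
  | 3 => sep c.2.1 (asg l 0) (asg l.tail)
  | 4 => pw (asg l 0)
  | 5 => coll c.2.1 (asg l 0) (asg l.tail)
  | 6 => orb (asg l 0)
  | 7 => pick (asg l 0) (asg l 1) c.2.2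
  | _ => emp

/-- closed sets of names -/
structure Closed (X : Set (HSN P F)) : Prop where
  step : ∀ (c : ℕ × Fm × P) (l : List (HSN P F)), (∀ x ∈ l, x ∈ X) → step c l ∈ X

omit [OrderTop P] in
theorem countable_lists {X : Set (HSN P F)} (hX : X.Countable) :
    {l : List (HSN P F) | ∀ x ∈ l, x ∈ X}.Countable := by
  have := hX.to_subtype
  refine (Set.countable_range (fun l : List X => l.map Subtype.val)).mono ?_
  intro l hl
  refine ⟨l.attachWith _ hl, ?_⟩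
  simp

theorem exists_closed [Countable P] (S : Set (HSN P F)) (hS : S.Countable) :
    ∃ X : Set (HSN P F), S ⊆ X ∧ X.Countable ∧ Closed X := by
  let nx : Set (HSN P F) → Set (HSN P F) := fun X =>
    X ∪ (fun x : (ℕ × Fm × P) × List (HSN P F) => step x.1 x.2) ''
      (Set.univ ×ˢ {l | ∀ x ∈ l, x ∈ X})
  let f : ℕ → Set (HSN P F) := fun n => Nat.rec S (fun _ X => nx X) n
  have hf : ∀ n, (f n).Countable := by
    intro n
    induction n with
    | zero => exact hS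
    | succ n ih =>
      show (nx (f n)).Countable
      exact ih.union ((Set.countable_univ.prod (countable_lists ih)).image _)
  have hmono : Monotone f := monotone_nat_of_le_succ fun n => by
    show f n ⊆ nx (f n)
    exact Set.subset_union_left
  refine ⟨⋃ n, f n, ?_, Set.countable_iUnion hf, ⟨fun c l hl => ?_⟩⟩
  · exact Set.subset_iUnion f 0
  · have : ∃ n, ∀ x ∈ l, x ∈ f n := by
      induction l with
      | nil => exact ⟨0, by simp⟩
      | cons y l ih =>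
        obtain ⟨n, hn⟩ := ih fun x hx => hl x (by simp [hx])
        obtain ⟨m, hm⟩ := Set.mem_iUnion.1 (hl y (by simp))
        refine ⟨max n m, fun x hx => ?_⟩
        rcases List.mem_cons.1 hx with rfl | hx
        · exact hmono (le_max_right _ _) hm
        · exact hmono (le_max_left _ _) (hn x hx)
    obtain ⟨n, hn⟩ := this
    refine Set.mem_iUnion.2 ⟨n + 1, ?_⟩
    show step c l ∈ nx (f n)
    exact Or.inr ⟨(c, l), ⟨trivial, hn⟩, rfl⟩

/-! ### generic filters -/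

/-- generic filters over a set of names -/
structure Generic (X : Set (HSN P F)) (G : Set P) : Prop where
  up : ∀ {p q}, p ≤ q → p ∈ G → q ∈ G
  dir : ∀ {p q}, p ∈ G → q ∈ G → ∃ r ∈ G, r ≤ p ∧ r ≤ q
  top : ⊤ ∈ G
  dec : ∀ (φ : Fm) (l : List (HSN P F)), (∀ x ∈ l, x ∈ X) →
    ∃ p ∈ G, φ.Frc p (asg l) ∨ (Fm.neg φ).Frc p (asg l)
  wit : ∀ (φ : Fm) (l : List (HSN P F)), (∀ x ∈ l, x ∈ X) →
    ∃ p ∈ G, (Fm.all (.neg φ)).Frc p (asg l) ∨ φ.Frc p (cons (wit φ (asg l) p) (asg l))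
  mem : ∀ a ∈ X, ∀ b ∈ X, ∃ p ∈ G, (∀ q ≤ p, ¬ Name.memF a.1 b.1 q) ∨
    ∃ j : b.1.ι, p ≤ b.1.cond j ∧ Name.eqF a.1 (b.1.val j) p ∧ b.cst j ∈ X

omit [OrderTop P] in
/-- meeting countably many dense sets -/
theorem exists_filter (D : ℕ → Set P) (hD : ∀ n, ∀ p, ∃ q ≤ p, q ∈ D n) (p₀ : P) :
    ∃ G : Set P, (∀ {p q}, p ≤ q → p ∈ G → q ∈ G) ∧
      (∀ {p q}, p ∈ G → q ∈ G → ∃ r ∈ G, r ≤ p ∧ r ≤ q) ∧ p₀ ∈ G ∧ ∀ n, ∃ p ∈ G, p ∈ D n := by
  choose f hf hfD using hD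
  let s : ℕ → P := fun n => Nat.rec p₀ (fun n p => f n p) n
  have hs : ∀ n, s (n + 1) = f n (s n) := fun n => rfl
  have hanti : Antitone s := antitone_nat_of_succ_le fun n => by rw [hs]; exact hf _ _
  refine ⟨{p | ∃ n, s n ≤ p}, ?_, ?_, ⟨0, le_rfl⟩, fun n => ⟨s (n + 1), ⟨n + 1, le_rfl⟩, ?_⟩⟩
  · rintro p q hpq ⟨n, hn⟩
    exact ⟨n, hn.trans hpq⟩
  · rintro p q ⟨n, hn⟩ ⟨m, hm⟩
    exact ⟨s (max n m), ⟨_, le_rfl⟩, (hanti (le_max_left _ _)).trans hn,
      (hanti (le_max_right _ _)).trans hm⟩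
  · rw [hs]; exact hfD _ _

omit [OrderTop P] in
theorem exists_filter' {ι : Type*} [Countable ι] (D : ι → Set P)
    (hD : ∀ n, ∀ p, ∃ q ≤ p, q ∈ D n) (p₀ : P) :
    ∃ G : Set P, (∀ {p q}, p ≤ q → p ∈ G → q ∈ G) ∧
      (∀ {p q}, p ∈ G → q ∈ G → ∃ r ∈ G, r ≤ p ∧ r ≤ q) ∧ p₀ ∈ G ∧ ∀ n, ∃ p ∈ G, p ∈ D n := by
  rcases isEmpty_or_nonempty ι with h | h
  · obtain ⟨G, h1, h2, h3, -⟩ := exists_filter (fun _ => Set.univ)
      (fun _ p => ⟨p, le_rfl, trivial⟩) p₀
    exact ⟨G, h1, h2, h3, fun n => (h.false n).elim⟩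
  · obtain ⟨e, he⟩ := exists_surjective_nat ι
    obtain ⟨G, h1, h2, h3, h4⟩ := exists_filter (fun n => D (e n)) (fun n => hD (e n)) p₀
    exact ⟨G, h1, h2, h3, fun n => by obtain ⟨m, rfl⟩ := he n; exact h4 m⟩

theorem exists_generic {X : Set (HSN P F)} (hX : X.Countable) (hc : Closed X)
    {κ : Type*} [Countable κ] (D : κ → Set P) (hD : ∀ n, ∀ p, ∃ q ≤ p, q ∈ D n) (p₀ : P) :
    ∃ G : Set P, Generic X G ∧ p₀ ∈ G ∧ ∀ n, ∃ p ∈ G, p ∈ D n := by
  have := hX.to_subtype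
  have := (countable_lists hX).to_subtype
  let L := {l : List (HSN P F) | ∀ x ∈ l, x ∈ X}
  let D' : κ ⊕ (Fm × L) ⊕ (Fm × L) ⊕ (X × X) → Set P := fun i => match i with
    | .inl k => D k
    | .inr (.inl (φ, l)) => {p | φ.Frc p (asg l.1) ∨ (Fm.neg φ).Frc p (asg l.1)}
    | .inr (.inr (.inl (φ, l))) => {p | (Fm.all (.neg φ)).Frc p (asg l.1) ∨
        φ.Frc p (cons (wit φ (asg l.1) p) (asg l.1))}
    | .inr (.inr (.inr (a, b))) => {p | (∀ q ≤ p, ¬ Name.memF a.1.1 b.1.1 q) ∨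
        ∃ j : b.1.1.ι, p ≤ b.1.1.cond j ∧ Name.eqF a.1.1 (b.1.1.val j) p ∧ b.1.cst j ∈ X}
  obtain ⟨G, h1, h2, h3, h4⟩ := exists_filter' D' (by
    rintro (k | ⟨φ, l⟩ | ⟨φ, l⟩ | ⟨a, b⟩) p
    · exact hD k p
    · by_cases h : ∃ q ≤ p, φ.Frc q (asg l.1)
      · obtain ⟨q, hq, h⟩ := h
        exact ⟨q, hq, Or.inl h⟩
      · push Not at h
        exact ⟨p, le_rfl, Or.inr h⟩
    · by_cases h : (Fm.all (.neg φ)).Frc p (asg l.1)
      · exact ⟨p, le_rfl, Or.inl h⟩
      · have h' : ∃ x : HSN P F, ∃ q ≤ p, φ.Frc q (cons x (asg l.1)) := by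
          by_contra hcon
          push Not at hcon
          exact h fun x q hq => hcon x q hq
        obtain ⟨x, q, hq, hx⟩ := h'
        exact ⟨q, hq, Or.inr (wit_spec ⟨x, hx⟩)⟩
    · by_cases h : ∀ q ≤ p, ¬ Name.memF a.1.1 b.1.1 q
      · exact ⟨p, le_rfl, Or.inl h⟩
      · push Not at h
        obtain ⟨q, hq, h⟩ := h
        obtain ⟨r, hr, hj⟩ := h q le_rfl
        obtain ⟨j, h5, h6, h7⟩ := pick_spec (a := a.1) (b := b.1) hj
        refine ⟨r, hr.trans hq, Or.inr ⟨j, h5, h6, ?_⟩⟩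
        rw [← h7]
        have := hc.step (7, .mem 0 0, r) [a.1, b.1] (by
          intro x hx
          simp only [List.mem_cons, List.not_mem_nil, or_false] at hx
          rcases hx with rfl | rfl
          · exact a.2
          · exact b.2)
        exact this) p₀
  refine ⟨G, ⟨h1, h2, h1 le_top h3, fun φ l hl => ?_, fun φ l hl => ?_, fun a ha b hb => ?_⟩,
    h3, fun n => h4 (.inl n)⟩
  · exact h4 (.inr (.inl (φ, ⟨l, hl⟩)))
  · exact h4 (.inr (.inr (.inl (φ, ⟨l, hl⟩))))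
  · exact h4 (.inr (.inr (.inr (⟨a, ha⟩, ⟨b, hb⟩))))

/-! ### the model -/

section

variable {X : Set (HSN P F)} {G : Set P} (hG : Generic X G)

/-- two names denote the same set -/
def stoid : Setoid X where
  r a b := ∃ p ∈ G, Name.eqF a.1.1 b.1.1 p
  iseqv := ⟨fun a => ⟨⊤, hG.top, Name.eqF_refl _ _⟩,
    fun ⟨p, hp, h⟩ => ⟨p, hp, Name.eqF_symm h⟩,
    fun ⟨p, hp, h⟩ ⟨q, hq, h'⟩ => by
      obtain ⟨r, hr, h1, h2⟩ := hG.dir hp hq
      exact ⟨r, hr, Name.eqF_trans (Name.eqF_mono h1 h) (Name.eqF_mono h2 h')⟩⟩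

/-- the generic model -/
def Mod : Type 1 := Quotient (stoid hG)

/-- interpretation of a name -/
def vl (a : X) : Mod hG := Quotient.mk (stoid hG) a

variable {hG}

theorem vl_eq {a b : X} : vl hG a = vl hG b ↔ ∃ p ∈ G, Name.eqF a.1.1 b.1.1 p :=
  Quotient.eq (r := stoid hG)

theorem vl_surj (x : Mod hG) : ∃ a : X, vl hG a = x := Quotient.exists_rep x

variable (hG) in
/-- membership in the model -/
def Ep : Mod hG → Mod hG → Prop :=
  Quotient.lift₂ (fun a b => ∃ p ∈ G, Name.memF a.1.1 b.1.1 p) (by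
    have key : ∀ a b a' b' : X, (stoid hG).r a a' → (stoid hG).r b b' →
        (∃ p ∈ G, Name.memF a.1.1 b.1.1 p) → ∃ p ∈ G, Name.memF a'.1.1 b'.1.1 p := by
      rintro a b a' b' ⟨p, hp, h⟩ ⟨q, hq, h'⟩ ⟨r, hr, h''⟩
      obtain ⟨s, hs, h1, h2⟩ := hG.dir hp hq
      obtain ⟨t, ht, h3, h4⟩ := hG.dir hs hr
      exact ⟨t, ht, Name.memF_congr_right (Name.eqF_mono (h3.trans h2) h')
        (Name.memF_congr_left (Name.eqF_mono (h3.trans h1) h) (Name.memF_mono h4 h''))⟩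
    intro a b a' b' h h'
    exact propext ⟨key a b a' b' h h', key a' b' a b ((stoid hG).symm h) ((stoid hG).symm h')⟩)

theorem Ep_iff {a b : X} : Ep hG (vl hG a) (vl hG b) ↔ ∃ p ∈ G, Name.memF a.1.1 b.1.1 p :=
  Iff.rfl

/-- decision of a formula -/
theorem decide_frc (hG : Generic X G) (φ : Fm) (v : ℕ → X) :
    ∃ p ∈ G, φ.Frc p (fun n => (v n).1) ∨ (Fm.neg φ).Frc p (fun n => (v n).1) := by
  obtain ⟨p, hp, h⟩ := hG.dec φ (ini (fun n => (v n).1) φ.bd) (ini_mem (fun n => (v n).2) _)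
  refine ⟨p, hp, ?_⟩
  have h1 := frc_local φ (p := p) (v := asg (ini (fun n => (v n).1) φ.bd))
    (w := fun n => (v n).1) (fun n hn => asg_ini _ hn)
  have h2 := frc_local (.neg φ) (p := p) (v := asg (ini (fun n => (v n).1) φ.bd))
    (w := fun n => (v n).1) (fun n hn => asg_ini _ hn)
  rwa [h1, h2] at h

/-- witnesses -/
theorem exists_wit (hc : Closed X) (hG : Generic X G) (φ : Fm) (v : ℕ → X)
    (h : ∀ p ∈ G, ∃ q ≤ p, ∃ x : HSN P F, φ.Frc q (cons x fun n => (v n).1)) :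
    ∃ p ∈ G, ∃ x : X, φ.Frc p (cons x.1 fun n => (v n).1) := by
  set l := ini (fun n => (v n).1) φ.bd with hl
  have hlX : ∀ x ∈ l, x ∈ X := ini_mem (fun n => (v n).2) _
  obtain ⟨p, hp, h1⟩ := hG.wit φ l hlX
  have key : ∀ (x : HSN P F) (q : P), φ.Frc q (cons x (asg l)) ↔
      φ.Frc q (cons x fun n => (v n).1) := by
    intro x q
    apply frc_local
    rintro (_ | n) hn
    · rfl
    · exact asg_ini _ (by omega)
  rcases h1 with h1 | h1
  · exfalso
    obtain ⟨q, hq, x, hx⟩ := h p hp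
    rw [← key] at hx
    exact h1 x q hq hx
  · have hw : wit φ (asg l) p ∈ X := hc.step (0, φ, p) l hlX
    rw [key] at h1
    exact ⟨p, hp, ⟨_, hw⟩, h1⟩

omit [OrderTop P] in
theorem frc_negneg {φ : Fm} {p : P} {v : ℕ → HSN P F} (h : (Fm.neg (.neg φ)).Frc p v) :
    φ.Frc p v := by
  apply frc_dense
  intro q hq
  by_contra hcon
  push Not at hcon
  exact h q hq hcon

/-- the truth lemma -/
theorem truth (hc : Closed X) (φ : Fm) (v : ℕ → X) :
    φ.Sat (Ep hG) (fun n => vl hG (v n)) ↔ ∃ p ∈ G, φ.Frc p (fun n => (v n).1) := by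
  induction φ generalizing v with
  | mem i j => exact Ep_iff
  | eq i j => exact vl_eq
  | neg φ ih =>
    constructor
    · intro h
      have h' : ¬ ∃ p ∈ G, φ.Frc p (fun n => (v n).1) := by rw [← ih]; exact h
      obtain ⟨p, hp, h1 | h1⟩ := decide_frc hG φ v
      · exact (h' ⟨p, hp, h1⟩).elim
      · exact ⟨p, hp, h1⟩
    · rintro ⟨p, hp, h⟩ hs
      obtain ⟨q, hq, hs⟩ := (ih v).1 hs
      obtain ⟨r, hr, h1, h2⟩ := hG.dir hp hq
      exact h r h1 (frc_mono φ h2 hs)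
  | and φ ψ h₁ h₂ =>
    constructor
    · rintro ⟨h, h'⟩
      obtain ⟨p, hp, h⟩ := (h₁ v).1 h
      obtain ⟨q, hq, h'⟩ := (h₂ v).1 h'
      obtain ⟨r, hr, h1, h2⟩ := hG.dir hp hq
      exact ⟨r, hr, frc_mono φ h1 h, frc_mono ψ h2 h'⟩
    · rintro ⟨p, hp, h, h'⟩
      exact ⟨(h₁ v).2 ⟨p, hp, h⟩, (h₂ v).2 ⟨p, hp, h'⟩⟩
  | all φ ih =>
    have key : ∀ x : X, cons (vl hG x) (fun n => vl hG (v n)) =
        fun n => vl hG (cons x v n) := fun x => (cons_comp (vl hG) x v).symm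
    have key2 : ∀ x : X, (fun n => (cons x v n).1) = cons x.1 fun n => (v n).1 :=
      fun x => cons_comp (fun x : X => x.1) x v
    constructor
    · intro h
      obtain ⟨p, hp, h1 | h1⟩ := decide_frc hG (.all φ) v
      · exact ⟨p, hp, h1⟩
      · exfalso
        obtain ⟨q, hq, x, hx⟩ := exists_wit hc hG (.neg φ) v (by
          intro q hq
          obtain ⟨r, hr, h2, h3⟩ := hG.dir hp hq
          by_contra hcon
          push Not at hcon
          refine h1 r h2 fun x => ?_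
          exact frc_mono φ h3 (frc_negneg (φ := φ) fun s hs => hcon s hs x))
        have h4 := h (vl hG x)
        rw [key, ih, key2] at h4
        obtain ⟨r, hr, h5⟩ := h4
        obtain ⟨s, hs, h6, h7⟩ := hG.dir hq hr
        exact hx s h6 (frc_mono φ h7 h5)
    · rintro ⟨p, hp, h⟩ x
      obtain ⟨x, rfl⟩ := vl_surj x
      rw [key, ih, key2]
      exact ⟨p, hp, h x.1⟩

omit [OrderTop P] in
theorem frc_imp {φ ψ : Fm} {p : P} {v : ℕ → HSN P F} :
    (Fm.neg (.and φ (.neg ψ))).Frc p v ↔ ∀ q ≤ p, φ.Frc q v → ψ.Frc q v := by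
  constructor
  · intro h q hq hφ
    apply frc_dense
    intro r hr
    by_contra hcon
    push Not at hcon
    exact h r (hr.trans hq) ⟨frc_mono φ hr hφ, hcon⟩
  · rintro h q hq ⟨h1, h2⟩
    exact h2 q le_rfl (h q hq h1)

/-- implication -/
def Fm.imp (φ ψ : Fm) : Fm := .neg (.and φ (.neg ψ))

theorem sat_imp {M : Type*} {E : M → M → Prop} {φ ψ : Fm} {v : ℕ → M} :
    (φ.imp ψ).Sat E v ↔ (φ.Sat E v → ψ.Sat E v) := by
  simp only [Fm.imp, Fm.Sat]
  tauto

variable (hG) in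
/-- if an element of the model belongs to another one, it is given by a constituent -/
theorem mem_cst {x : Mod hG} {b : X} (h : Ep hG x (vl hG b)) :
    ∃ (j : b.1.1.ι) (hj : b.1.cst j ∈ X), b.1.1.cond j ∈ G ∧ x = vl hG ⟨b.1.cst j, hj⟩ := by
  obtain ⟨a, rfl⟩ := vl_surj x
  obtain ⟨p, hp, h⟩ := Ep_iff.1 h
  obtain ⟨q, hq, h1 | ⟨j, h1, h2, h3⟩⟩ := hG.mem a.1 a.2 b.1 b.2
  · exfalso
    obtain ⟨r, hr, h2, h3⟩ := hG.dir hp hq
    exact h1 r h3 (Name.memF_mono h2 h)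
  · exact ⟨j, h3, hG.up h1 hq, vl_eq.2 ⟨q, hq, h2⟩⟩

theorem cst_mem {b : X} {j : b.1.1.ι} (hj : b.1.cst j ∈ X) (hp : b.1.1.cond j ∈ G) :
    Ep hG (vl hG ⟨b.1.cst j, hj⟩) (vl hG b) :=
  Ep_iff.2 ⟨_, hp, Name.memF_val j le_rfl⟩

variable (hG) in
theorem wf_Ep : WellFounded (Ep hG) := by
  refine ⟨fun x => ?_⟩
  obtain ⟨a, rfl⟩ := vl_surj x
  have key : ∀ (n : Name P) (hn : n.HS F) (hX : (⟨n, hn⟩ : HSN P F) ∈ X),
      Acc (Ep hG) (vl hG ⟨⟨n, hn⟩, hX⟩) := by
    intro n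
    induction n with
    | mk ι v c ih =>
      intro hn hX
      refine Acc.intro _ fun y hy => ?_
      obtain ⟨j, hj, -, rfl⟩ := mem_cst hG hy
      exact ih j _ hj
  exact key a.1.1 a.1.2 a.2

end

/-! ### natural numbers -/

/-- name of a natural number -/
def chkN : ℕ → Name P
  | n => .mk (Fin n) (fun k => chkN k.1) (fun _ => ⊤)

omit [OrderAct P Gr] [Group Gr] in
theorem chkN_eq (n : ℕ) : (chkN n : Name P) = .mk (Fin n) (fun k => chkN k.1) (fun _ => ⊤) := by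
  conv_lhs => unfold chkN

theorem smul_chkN (g : Gr) (n : ℕ) : g • (chkN n : Name P) = chkN n := by
  induction n using Nat.strong_induction_on with
  | _ n ih =>
    rw [chkN_eq, Name.smul_mk]
    congr 1
    · funext k; exact ih k.1 k.2
    · funext k; exact smul_top' g

theorem hs_chkN (n : ℕ) : (chkN n : Name P).HS F := by
  induction n using Nat.strong_induction_on with
  | _ n ih =>
    have h : ∃ H, F.Big H ∧ (chkN n : Name P).FixedBy H := by
      refine ⟨⊤, F.top, fun g _ => ?_⟩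
      rw [smul_chkN]; exact Name.EqAll.refl _
    rw [chkN_eq] at h ⊢
    exact ⟨h, fun k => ih k.1 k.2⟩

/-- natural number -/
def chk (n : ℕ) : HSN P F := ⟨chkN n, hs_chkN n⟩

/-- the set of natural numbers -/
def omg : HSN P F := ⟨.mk ℕ (fun n => chkN n) (fun _ => ⊤), by
  refine ⟨⟨⊤, F.top, fun g _ => ?_⟩, fun n => hs_chkN n⟩
  have : g • (Name.mk ℕ (fun n => chkN n) (fun _ => ⊤) : Name P) =
      Name.mk ℕ (fun n => chkN n) (fun _ => ⊤) := by
    rw [Name.smul_mk]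
    congr 1
    · funext k; exact smul_chkN g k
    · funext k; exact smul_top' g
  rw [this]; exact Name.EqAll.refl _⟩

/-! ### the axioms of ZF -/

section

variable {X : Set (HSN P F)} {G : Set P} {hG : Generic X G}

theorem Ep_chk (hchk : ∀ n, (chk n : HSN P F) ∈ X) (n : ℕ) (x : Mod hG) :
    Ep hG x (vl hG ⟨chk n, hchk n⟩) ↔ ∃ m < n, x = vl hG ⟨chk m, hchk m⟩ := by
  have hi : (chk n : HSN P F) = ⟨.mk (Fin n) (fun k => chkN k.1) (fun _ => ⊤), by
      have := hs_chkN (P := P) (F := F) n; rwa [chkN_eq] at this⟩ := by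
    apply Subtype.ext; exact chkN_eq n
  constructor
  · intro h
    have hX : (⟨.mk (Fin n) (fun k => chkN k.1) (fun _ => ⊤), by
      have := hs_chkN (P := P) (F := F) n; rwa [chkN_eq] at this⟩ : HSN P F) ∈ X := hi ▸ hchk n
    have h' : Ep hG x (vl hG ⟨_, hX⟩) := by
      have : (⟨chk n, hchk n⟩ : X) = ⟨_, hX⟩ := Subtype.ext hi
      rwa [this] at h
    obtain ⟨j, hj, -, rfl⟩ := mem_cst hG h'
    exact ⟨j.1, j.2, rfl⟩
  · rintro ⟨m, hm, rfl⟩
    refine Ep_iff.2 ⟨⊤, hG.top, ?_⟩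
    show Name.memF (chkN m) (chkN n) ⊤
    rw [chkN_eq n]
    intro q _
    exact ⟨q, le_rfl, (⟨m, hm⟩ : Fin n), le_top, Name.eqF_refl _ _⟩

theorem Ep_omg (hchk : ∀ n, (chk n : HSN P F) ∈ X) (homg : (omg : HSN P F) ∈ X) (x : Mod hG) :
    Ep hG x (vl hG ⟨omg, homg⟩) ↔ ∃ n, x = vl hG ⟨chk n, hchk n⟩ := by
  constructor
  · intro h
    obtain ⟨j, hj, -, rfl⟩ := mem_cst hG h
    exact ⟨j, rfl⟩
  · rintro ⟨n, rfl⟩
    refine Ep_iff.2 ⟨⊤, hG.top, fun q _ => ⟨q, le_rfl, n, le_top, Name.eqF_refl _ _⟩⟩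

/-- the generic model satisfies ZF -/
theorem isZF_Ep (hc : Closed X) (hchk : ∀ n, (chk n : HSN P F) ∈ X)
    (homg : (omg : HSN P F) ∈ X) : IsZF (Ep hG) := by
  have hemp : (emp : HSN P F) ∈ X := hc.step (8, .mem 0 0, ⊤) [] (by simp)
  have sepax : ∀ (φ : Fm) (v : ℕ → Mod hG) (a : Mod hG),
      ∃ b, ∀ x, Ep hG x b ↔ Ep hG x a ∧ φ.Sat (Ep hG) (cons x v) := by
    intro φ v a
    choose v' hv' using fun n => vl_surj (v n)
    obtain ⟨a, rfl⟩ := vl_surj a
    obtain rfl : (fun n => vl hG (v' n)) = v := funext hv'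
    set l := ini (fun n => (v' n).1) φ.bd with hl
    have hlX : ∀ x ∈ l, x ∈ X := ini_mem (fun n => (v' n).2) _
    have hb : sep φ a.1 (asg l) ∈ X := hc.step (3, φ, ⊤) (a.1 :: l) (by
      intro x hx
      rcases List.mem_cons.1 hx with rfl | hx
      · exact a.2
      · exact hlX x hx)
    refine ⟨vl hG ⟨_, hb⟩, fun x => ?_⟩
    obtain ⟨x, rfl⟩ := vl_surj x
    have key : ∀ q, φ.Frc q (cons x.1 (asg l)) ↔ φ.Frc q (fun n => (cons x v' n).1) := by
      intro q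
      apply frc_local
      rintro (_ | n) hn
      · rfl
      · exact asg_ini _ (by omega)
    rw [← cons_comp (vl hG), truth hc, Ep_iff, Ep_iff]
    constructor
    · rintro ⟨p, hp, h⟩
      obtain ⟨h1, h2⟩ := memF_sepN.1 h
      exact ⟨⟨p, hp, h1⟩, p, hp, (key p).1 h2⟩
    · rintro ⟨⟨p, hp, h1⟩, q, hq, h2⟩
      obtain ⟨r, hr, h3, h4⟩ := hG.dir hp hq
      exact ⟨r, hr, memF_sepN.2 ⟨Name.memF_mono h3 h1, (key r).2 (frc_mono φ h4 h2)⟩⟩
  refine ⟨?_, ?_, ?_, ?_, ?_, ?_, sepax, ?_⟩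
  · -- extensionality
    intro a b hab
    obtain ⟨a, rfl⟩ := vl_surj a
    obtain ⟨b, rfl⟩ := vl_surj b
    have h1 : (Fm.all (.and (.imp (.mem 0 1) (.mem 0 2)) (.imp (.mem 0 2) (.mem 0 1)))).Sat (Ep hG)
        (fun n => vl hG (cons a (fun _ => b) n)) := by
      intro x
      refine ⟨sat_imp.2 fun h => ?_, sat_imp.2 fun h => ?_⟩
      · exact (hab x).1 h
      · exact (hab x).2 h
    rw [truth hc] at h1
    obtain ⟨p, hp, h1⟩ := h1
    refine vl_eq.2 ⟨p, hp, ?_⟩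
    refine eqF_of_mem (F := F) (fun i => (a.1.cst i).2) (fun i => (b.1.cst i).2) fun x q hq => ?_
    obtain ⟨h2, h3⟩ := h1 x
    exact ⟨frc_imp.1 h2 q hq, frc_imp.1 h3 q hq⟩
  · -- foundation
    intro a ⟨x, hx⟩
    obtain ⟨m, hm, hmin⟩ := (wf_Ep hG).has_min {x | Ep hG x a} ⟨x, hx⟩
    exact ⟨m, hm, fun y hy hya => hmin y hya hy⟩
  · -- pairing
    intro a b
    obtain ⟨a, rfl⟩ := vl_surj a
    obtain ⟨b, rfl⟩ := vl_surj b
    have hb : pr a.1 b.1 ∈ X := hc.step (1, .mem 0 0, ⊤) [a.1, b.1] (by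
      intro x hx
      simp only [List.mem_cons, List.not_mem_nil, or_false] at hx
      rcases hx with rfl | rfl
      · exact a.2
      · exact b.2)
    refine ⟨vl hG ⟨_, hb⟩, fun x => ⟨fun h => ?_, ?_⟩⟩
    · obtain ⟨j, hj, -, rfl⟩ := mem_cst hG h
      cases j
      · exact Or.inr rfl
      · exact Or.inl rfl
    · rintro (rfl | rfl)
      · exact Ep_iff.2 ⟨⊤, hG.top, fun q _ => ⟨q, le_rfl, true, le_top, Name.eqF_refl _ _⟩⟩
      · exact Ep_iff.2 ⟨⊤, hG.top, fun q _ => ⟨q, le_rfl, false, le_top, Name.eqF_refl _ _⟩⟩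
  · -- union
    intro a
    obtain ⟨a, rfl⟩ := vl_surj a
    have hb : un a.1 ∈ X := hc.step (2, .mem 0 0, ⊤) [a.1] (by
      intro x hx
      simp only [List.mem_cons, List.not_mem_nil, or_false] at hx
      rw [hx]; exact a.2)
    refine ⟨vl hG ⟨_, hb⟩, fun x => ?_⟩
    obtain ⟨x, rfl⟩ := vl_surj x
    constructor
    · intro h
      obtain ⟨p, hp, h⟩ := Ep_iff.1 h
      have h1 := memF_unionN.1 h
      obtain ⟨q, hq, y, hy1, hy2⟩ := exists_wit hc hG (.and (.mem 0 1) (.mem 2 0))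
        (cons a fun _ => x) (by
          intro q hq
          obtain ⟨r, hr, h2, h3⟩ := hG.dir hp hq
          obtain ⟨s, hs, y, h4, h5⟩ := h1 r h2
          exact ⟨s, hs.trans h3, y, h4, h5⟩)
      exact ⟨vl hG y, Ep_iff.2 ⟨q, hq, hy1⟩, Ep_iff.2 ⟨q, hq, hy2⟩⟩
    · rintro ⟨y, h1, h2⟩
      obtain ⟨y, rfl⟩ := vl_surj y
      obtain ⟨p, hp, h1⟩ := Ep_iff.1 h1
      obtain ⟨q, hq, h2⟩ := Ep_iff.1 h2
      obtain ⟨r, hr, h3, h4⟩ := hG.dir hp hq
      refine Ep_iff.2 ⟨r, hr, memF_unionN.2 fun s hs => ⟨s, le_rfl, y.1, ?_, ?_⟩⟩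
      · exact Name.memF_mono (hs.trans h3) h1
      · exact Name.memF_mono (hs.trans h4) h2
  · -- power set
    intro a
    obtain ⟨a, rfl⟩ := vl_surj a
    have hb : pw a.1 ∈ X := hc.step (4, .mem 0 0, ⊤) [a.1] (by
      intro x hx
      simp only [List.mem_cons, List.not_mem_nil, or_false] at hx
      rw [hx]; exact a.2)
    refine ⟨vl hG ⟨_, hb⟩, fun x => ?_⟩
    obtain ⟨x, rfl⟩ := vl_surj x
    constructor
    · intro h z hz
      obtain ⟨z, rfl⟩ := vl_surj z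
      obtain ⟨p, hp, h⟩ := Ep_iff.1 h
      obtain ⟨q, hq, hz⟩ := Ep_iff.1 hz
      obtain ⟨r, hr, h3, h4⟩ := hG.dir hp hq
      exact Ep_iff.2 ⟨r, hr, memF_powN.1 h z.1 r h3 (Name.memF_mono h4 hz)⟩
    · intro h
      have h1 : (Fm.all (.imp (.mem 0 1) (.mem 0 2))).Sat (Ep hG)
          (fun n => vl hG (cons x (fun _ => a) n)) := fun z => sat_imp.2 (h z)
      rw [truth hc] at h1
      obtain ⟨p, hp, h1⟩ := h1
      exact Ep_iff.2 ⟨p, hp, memF_powN.2 fun y q hq => frc_imp.1 (h1 y) q hq⟩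
  · -- infinity
    refine ⟨vl hG ⟨omg, homg⟩, ⟨vl hG ⟨chk 0, hchk 0⟩, ?_, ?_⟩, ?_⟩
    · intro z hz
      rw [Ep_chk hchk] at hz
      obtain ⟨m, hm, -⟩ := hz
      omega
    · rw [Ep_omg hchk]; exact ⟨0, rfl⟩
    · intro x hx
      rw [Ep_omg hchk] at hx
      obtain ⟨n, rfl⟩ := hx
      refine ⟨vl hG ⟨chk (n + 1), hchk _⟩, (Ep_omg hchk homg _).2 ⟨_, rfl⟩, fun z => ?_⟩
      rw [Ep_chk hchk, Ep_chk hchk]
      constructor
      · rintro ⟨m, hm, rfl⟩
        rcases Nat.lt_succ_iff_lt_or_eq.1 hm with hm | rfl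
        · exact Or.inl ⟨m, hm, rfl⟩
        · exact Or.inr rfl
      · rintro (⟨m, hm, rfl⟩ | rfl)
        · exact ⟨m, by omega, rfl⟩
        · exact ⟨n, by omega, rfl⟩
  · -- replacement
    intro φ v a hfun
    -- collection
    obtain ⟨c, hcc⟩ : ∃ c, ∀ x, Ep hG x a → ∃ y, Ep hG y c ∧ φ.Sat (Ep hG) (cons y (cons x v)) := by
      choose v' hv' using fun n => vl_surj (v n)
      obtain ⟨a, rfl⟩ := vl_surj a
      obtain rfl : (fun n => vl hG (v' n)) = v := funext hv'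
      set l := ini (fun n => (v' n).1) φ.bd with hl
      have hlX : ∀ x ∈ l, x ∈ X := ini_mem (fun n => (v' n).2) _
      have hb : coll φ a.1 (asg l) ∈ X := hc.step (5, φ, ⊤) (a.1 :: l) (by
        intro x hx
        rcases List.mem_cons.1 hx with rfl | hx
        · exact a.2
        · exact hlX x hx)
      refine ⟨vl hG ⟨_, hb⟩, fun x hx => ?_⟩
      obtain ⟨y, hy, -⟩ := hfun x hx
      obtain ⟨j, hj, -, rfl⟩ := mem_cst hG hx
      have hl'X : ∀ x ∈ (a.1.cst j :: l), x ∈ X := by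
        intro x hx
        rcases List.mem_cons.1 hx with rfl | hx
        · exact hj
        · exact hlX x hx
      set x' : X := ⟨a.1.cst j, hj⟩ with hx'
      have key : ∀ (z : X) q, φ.Frc q (cons z.1 (asg (a.1.cst j :: l))) ↔
          φ.Frc q (fun n => (cons z (cons x' v') n).1) := by
        intro z q
        apply frc_local
        rintro (_ | _ | n) hn
        · rfl
        · rw [asg_cons]; rfl
        · rw [asg_cons]
          exact asg_ini _ (by omega)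
      have key2 : ∀ z : X, cons (vl hG z) (cons (vl hG x') fun n => vl hG (v' n)) =
          fun n => vl hG (cons z (cons x' v') n) := by
        intro z
        rw [cons_comp, cons_comp]
      obtain ⟨p, hp, h1 | h1⟩ := hG.wit φ (a.1.cst j :: l) hl'X
      · exfalso
        obtain ⟨y, rfl⟩ := vl_surj y
        rw [key2, truth hc] at hy
        obtain ⟨q, hq, hy⟩ := hy
        obtain ⟨r, hr, h2, h3⟩ := hG.dir hp hq
        exact h1 y.1 r h2 ((key y r).2 (frc_mono φ h3 hy))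
      · have hw : wit φ (asg (a.1.cst j :: l)) p ∈ X := hc.step (0, φ, p) _ hl'X
        refine ⟨vl hG ⟨_, hw⟩, ?_, ?_⟩
        · refine Ep_iff.2 ⟨⊤, hG.top, ?_⟩
          have := memF_orbFam (F := F) (P := P) (ι := a.1.1.ι × P)
            (fun x => wit φ (cons (a.1.cst x.1) (asg l)) x.2) (j, p) ⊤
          rw [← asg_cons] at this
          exact this
        · rw [key2, truth hc]
          exact ⟨p, hp, (key ⟨_, hw⟩ p).1 h1⟩
    -- separation
    set f : ℕ → ℕ := fun n => match n with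
      | 0 => 1
      | 1 => 0
      | n + 2 => n + 3 with hf
    obtain ⟨b, hb⟩ := sepax (.neg (.all (.neg (.and (.mem 0 2) (φ.ren f))))) (cons a v) c
    refine ⟨b, fun y => ?_⟩
    have key : (Fm.neg (.all (.neg (.and (.mem 0 2) (φ.ren f))))).Sat (Ep hG)
        (cons y (cons a v)) ↔ ∃ x, Ep hG x a ∧ φ.Sat (Ep hG) (cons y (cons x v)) := by
      simp only [Fm.Sat, sat_ren, not_forall, not_not]
      refine exists_congr fun x => and_congr Iff.rfl ?_
      have : (fun n => cons x (cons y (cons a v)) (f n)) = cons y (cons x v) := by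
        funext n
        rcases n with _ | _ | n <;> rfl
      rw [this]
    rw [hb, key]
    constructor
    · exact fun h => h.2
    · rintro ⟨x, hx, hy⟩
      refine ⟨?_, x, hx, hy⟩
      obtain ⟨y', hy', hφ⟩ := hcc x hx
      obtain ⟨y'', -, huniq⟩ := hfun x hx
      rw [huniq y hy, ← huniq y' hφ]
      exact hy'

end

end Pool.Agent.Helper9.Sym
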