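import Pool.Agent.Helper9.Sym.ZF

/-!
Names, the forcing relation, hereditarily symmetric names.
-/

namespace Pool.Agent.Helper9.Sym

/-- names -/
inductive Name (P : Type) : Type 1
  | mk (ι : Type) (val : ι → Name P) (cond : ι → P) : Name P

namespace Name

variable {P : Type}

def ι : Name P → Type
  | mk ι _ _ => ι

def val : (a : Name P) → a.ι → Name P
  | mk _ v _ => v

def cond : (a : Name P) → a.ι → P
  | mk _ _ c => c

@[simp] theorem eta (a : Name P) : mk a.ι a.val a.cond = a := by cases a; rfl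

variable [PartialOrder P]

/-- forced equality -/
def eqF : Name P → Name P → P → Prop
  | mk ι v c, mk κ w d => fun p =>
    (∀ i : ι, ∀ q ≤ p, q ≤ c i → ∃ r ≤ q, ∃ j : κ, r ≤ d j ∧ eqF (v i) (w j) r) ∧
    (∀ j : κ, ∀ q ≤ p, q ≤ d j → ∃ r ≤ q, ∃ i : ι, r ≤ c i ∧ eqF (v i) (w j) r)

/-- forced membership -/
def memF (a b : Name P) (p : P) : Prop :=
  ∀ q ≤ p, ∃ r ≤ q, ∃ j : b.ι, r ≤ b.cond j ∧ eqF a (b.val j) r

theorem eqF_def (a b : Name P) (p : P) : eqF a b p ↔
    (∀ i : a.ι, ∀ q ≤ p, q ≤ a.cond i → ∃ r ≤ q, ∃ j : b.ι, r ≤ b.cond j ∧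
      eqF (a.val i) (b.val j) r) ∧
    (∀ j : b.ι, ∀ q ≤ p, q ≤ b.cond j → ∃ r ≤ q, ∃ i : a.ι, r ≤ a.cond i ∧
      eqF (a.val i) (b.val j) r) := by
  cases a; cases b; rfl

theorem eqF_mono {a b : Name P} {p q : P} (h : q ≤ p) (hp : eqF a b p) : eqF a b q := by
  rw [eqF_def] at hp ⊢
  exact ⟨fun i r hr => hp.1 i r (hr.trans h), fun j r hr => hp.2 j r (hr.trans h)⟩

theorem eqF_dense {a b : Name P} {p : P} (h : ∀ q ≤ p, ∃ r ≤ q, eqF a b r) : eqF a b p := by
  rw [eqF_def]
  constructor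
  · intro i q hq hqi
    obtain ⟨r, hr, hab⟩ := h q hq
    rw [eqF_def] at hab
    obtain ⟨s, hs, j, hj⟩ := hab.1 i r le_rfl (hr.trans hqi)
    exact ⟨s, hs.trans hr, j, hj⟩
  · intro j q hq hqi
    obtain ⟨r, hr, hab⟩ := h q hq
    rw [eqF_def] at hab
    obtain ⟨s, hs, i, hi⟩ := hab.2 j r le_rfl (hr.trans hqi)
    exact ⟨s, hs.trans hr, i, hi⟩

theorem eqF_refl (a : Name P) : ∀ p, eqF a a p := by
  induction a with
  | mk ι v c ih =>
    intro p
    exact ⟨fun i q _ hqi => ⟨q, le_rfl, i, hqi, ih i q⟩,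
      fun i q _ hqi => ⟨q, le_rfl, i, hqi, ih i q⟩⟩

theorem eqF_symm {a b : Name P} {p : P} (h : eqF a b p) : eqF b a p := by
  induction a generalizing b p with
  | mk ι v c ih =>
    cases b with
    | mk κ w d =>
      refine ⟨fun j q hq hqj => ?_, fun i q hq hqi => ?_⟩
      · obtain ⟨r, hr, i, hi, he⟩ := h.2 j q hq hqj
        exact ⟨r, hr, i, hi, ih i he⟩
      · obtain ⟨r, hr, j, hj, he⟩ := h.1 i q hq hqi
        exact ⟨r, hr, j, hj, ih i he⟩

theorem eqF_comm {a b : Name P} {p : P} : eqF a b p ↔ eqF b a p := ⟨eqF_symm, eqF_symm⟩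

theorem eqF_trans {a b c : Name P} {p : P} (h₁ : eqF a b p) (h₂ : eqF b c p) : eqF a c p := by
  induction a generalizing b c p with
  | mk ι v d ih =>
    rw [eqF_def] at h₁ h₂ ⊢
    constructor
    · intro i q hq hqi
      obtain ⟨r, hr, j, hj, he⟩ := h₁.1 i q hq hqi
      obtain ⟨s, hs, k, hk, he'⟩ := h₂.1 j r (hr.trans hq) hj
      exact ⟨s, hs.trans hr, k, hk, ih i (eqF_mono hs he) he'⟩
    · intro k q hq hqk
      obtain ⟨r, hr, j, hj, he⟩ := h₂.2 k q hq hqk
      obtain ⟨s, hs, i, hi, he'⟩ := h₁.2 j r (hr.trans hq) hj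
      exact ⟨s, hs.trans hr, i, hi, ih i he' (eqF_mono hs he)⟩

theorem memF_mono {a b : Name P} {p q : P} (h : q ≤ p) (hp : memF a b p) : memF a b q :=
  fun r hr => hp r (hr.trans h)

theorem memF_dense {a b : Name P} {p : P} (h : ∀ q ≤ p, ∃ r ≤ q, memF a b r) : memF a b p := by
  intro q hq
  obtain ⟨r, hr, hab⟩ := h q hq
  obtain ⟨s, hs, j, hj⟩ := hab r le_rfl
  exact ⟨s, hs.trans hr, j, hj⟩

theorem memF_val {a : Name P} (i : a.ι) {p : P} (hp : p ≤ a.cond i) : memF (a.val i) a p :=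
  fun q hq => ⟨q, le_rfl, i, hq.trans hp, eqF_refl _ _⟩

theorem memF_congr_left {a a' b : Name P} {p : P} (h : eqF a a' p) (hab : memF a b p) :
    memF a' b p := by
  intro q hq
  obtain ⟨r, hr, j, hj, he⟩ := hab q hq
  exact ⟨r, hr, j, hj, eqF_trans (eqF_symm (eqF_mono (hr.trans hq) h)) he⟩

theorem memF_congr_right {a b b' : Name P} {p : P} (h : eqF b b' p) (hab : memF a b p) :
    memF a b' p := by
  intro q hq
  obtain ⟨r, hr, j, hj, he⟩ := hab q hq
  rw [eqF_def] at h
  obtain ⟨s, hs, k, hk, he'⟩ := h.1 j r (hr.trans hq) hj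
  exact ⟨s, hs.trans hr, k, hk, eqF_trans (eqF_mono hs he) he'⟩

theorem eqF_iff (a b : Name P) (p : P) : eqF a b p ↔
    (∀ i : a.ι, ∀ q ≤ p, q ≤ a.cond i → memF (a.val i) b q) ∧
    (∀ j : b.ι, ∀ q ≤ p, q ≤ b.cond j → memF (b.val j) a q) := by
  constructor
  · intro h
    constructor
    · intro i q hq hqi
      exact memF_congr_right (eqF_mono hq h) (memF_val i hqi)
    · intro j q hq hqj
      exact memF_congr_right (eqF_symm (eqF_mono hq h)) (memF_val j hqj)
  · rintro ⟨h₁, h₂⟩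
    rw [eqF_def]
    constructor
    · intro i q hq hqi
      exact h₁ i q hq hqi q le_rfl
    · intro j q hq hqj
      obtain ⟨r, hr, i, hi, he⟩ := h₂ j q hq hqj q le_rfl
      exact ⟨r, hr, i, hi, eqF_symm he⟩

/-! ### group action -/

variable {Gr : Type} [Group Gr] [MulAction Gr P]

/-- action of automorphisms on names -/
def act (g : Gr) : Name P → Name P
  | mk ι v c => mk ι (fun i => act g (v i)) (fun i => g • c i)

instance : SMul Gr (Name P) := ⟨act⟩

theorem smul_mk (g : Gr) (ι : Type) (v : ι → Name P) (c : ι → P) :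
    g • mk ι v c = mk ι (fun i => g • v i) (fun i => g • c i) := rfl

instance : MulAction Gr (Name P) where
  one_smul a := by
    induction a with
    | mk ι v c ih => rw [smul_mk]; simp [ih]
  mul_smul g h a := by
    induction a with
    | mk ι v c ih => rw [smul_mk, smul_mk, smul_mk]; simp [ih, mul_smul]

end Name

/-- the group acts on the partial order by automorphisms -/
class OrderAct (P : Type) [PartialOrder P] (Gr : Type) [Group Gr] extends MulAction Gr P where
  smul_mono : ∀ (g : Gr) {p q : P}, p ≤ q → g • p ≤ g • q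

variable {P : Type} [PartialOrder P] {Gr : Type} [Group Gr] [OrderAct P Gr]

theorem smul_le_iff (g : Gr) {p q : P} : g • p ≤ g • q ↔ p ≤ q := by
  constructor
  · intro h
    have := OrderAct.smul_mono g⁻¹ h
    simpa using this
  · exact OrderAct.smul_mono g

theorem le_smul_iff (g : Gr) {p q : P} : p ≤ g • q ↔ g⁻¹ • p ≤ q := by
  rw [← smul_le_iff g⁻¹ (q := g • q)]; simp

namespace Name

theorem eqF_smul (g : Gr) {a b : Name P} {p : P} (h : eqF a b p) :
    eqF (g • a) (g • b) (g • p) := by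
  induction a generalizing b p with
  | mk ι v c ih =>
    cases b with
    | mk κ w d =>
      rw [smul_mk, smul_mk]
      refine ⟨fun i q hq hqi => ?_, fun j q hq hqj => ?_⟩
      · have h1 : g⁻¹ • q ≤ p := (le_smul_iff g).1 hq
        have h2 : g⁻¹ • q ≤ c i := (le_smul_iff g).1 hqi
        obtain ⟨r, hr, j, hj, he⟩ := h.1 i _ h1 h2
        refine ⟨g • r, ?_, j, OrderAct.smul_mono g hj, ih i he⟩
        have := OrderAct.smul_mono g hr
        simpa using this
      · have h1 : g⁻¹ • q ≤ p := (le_smul_iff g).1 hq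
        have h2 : g⁻¹ • q ≤ d j := (le_smul_iff g).1 hqj
        obtain ⟨r, hr, i, hi, he⟩ := h.2 j _ h1 h2
        refine ⟨g • r, ?_, i, OrderAct.smul_mono g hi, ih i he⟩
        have := OrderAct.smul_mono g hr
        simpa using this

theorem eqF_smul_iff (g : Gr) {a b : Name P} {p : P} :
    eqF (g • a) (g • b) (g • p) ↔ eqF a b p := by
  constructor
  · intro h
    have := eqF_smul g⁻¹ h
    simpa using this
  · exact eqF_smul g

theorem ι_smul (g : Gr) (a : Name P) : (g • a).ι = a.ι := by cases a; rfl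

theorem memF_mk_iff {ι : Type} {v : ι → Name P} {c : ι → P} {a : Name P} {p : P} :
    memF a (mk ι v c) p ↔ ∀ q ≤ p, ∃ r ≤ q, ∃ j : ι, r ≤ c j ∧ eqF a (v j) r := Iff.rfl

theorem memF_smul (g : Gr) {a b : Name P} {p : P} (h : memF a b p) :
    memF (g • a) (g • b) (g • p) := by
  cases b with
  | mk κ w d =>
    rw [smul_mk, memF_mk_iff]
    intro q hq
    have h1 : g⁻¹ • q ≤ p := (le_smul_iff g).1 hq
    obtain ⟨r, hr, j, hj, he⟩ := h _ h1
    refine ⟨g • r, ?_, j, OrderAct.smul_mono g hj, eqF_smul g he⟩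
    have := OrderAct.smul_mono g hr
    simpa using this

theorem memF_smul_iff (g : Gr) {a b : Name P} {p : P} :
    memF (g • a) (g • b) (g • p) ↔ memF a b p := by
  constructor
  · intro h
    have := memF_smul g⁻¹ h
    simpa using this
  · exact memF_smul g

/-- the names are forced to be equal -/
def EqAll (a b : Name P) : Prop := ∀ p, eqF a b p

theorem EqAll.refl (a : Name P) : EqAll a a := eqF_refl a
theorem EqAll.symm {a b : Name P} (h : EqAll a b) : EqAll b a := fun p => eqF_symm (h p)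
theorem EqAll.trans {a b c : Name P} (h : EqAll a b) (h' : EqAll b c) : EqAll a c :=
  fun p => eqF_trans (h p) (h' p)
theorem EqAll.smul {a b : Name P} (h : EqAll a b) (g : Gr) : EqAll (g • a) (g • b) := by
  intro p
  have := eqF_smul g (h (g⁻¹ • p))
  simpa using this

end Name

/-- normal filter of subgroups -/
structure NFilter (Gr : Type) [Group Gr] where
  Big : Subgroup Gr → Prop
  top : Big ⊤
  mono : ∀ {H K}, H ≤ K → Big H → Big K
  inf : ∀ {H K}, Big H → Big K → Big (H ⊓ K)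
  conj : ∀ {H} (g : Gr), Big H → Big (H.map (MulAut.conj g).toMonoidHom)

variable (F : NFilter Gr)

/-- the name is fixed by all elements of `H` -/
def Name.FixedBy (a : Name P) (H : Subgroup Gr) : Prop := ∀ g ∈ H, Name.EqAll (g • a) a

/-- hereditarily symmetric names -/
def Name.HS : Name P → Prop
  | .mk ι v c => (∃ H, F.Big H ∧ Name.FixedBy (Name.mk ι v c) H) ∧ ∀ i, HS (v i)

namespace Name

variable {F}

theorem hs_iff (a : Name P) : a.HS F ↔ (∃ H, F.Big H ∧ a.FixedBy H) ∧ ∀ i, (a.val i).HS F := by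
  cases a; rfl

theorem FixedBy.smul {a : Name P} {H : Subgroup Gr} (h : a.FixedBy H) (g : Gr) :
    (g • a).FixedBy (H.map (MulAut.conj g).toMonoidHom) := by
  rintro k ⟨k, hk, rfl⟩
  have h1 : (MulAut.conj g).toMonoidHom k • g • a = g • (k • a) := by
    simp [MulAut.conj_apply, smul_smul]
  rw [h1]
  exact (h k hk).smul g

theorem HS.smul {a : Name P} (h : a.HS F) (g : Gr) : (g • a).HS F := by
  induction a with
  | mk ι v c ih =>
    obtain ⟨⟨H, hH, hf⟩, hv⟩ := h
    rw [smul_mk]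
    refine ⟨⟨_, F.conj g hH, ?_⟩, fun i => ih i (hv i)⟩
    exact hf.smul g

theorem FixedBy.mono {a : Name P} {H K : Subgroup Gr} (hK : K ≤ H) (h : a.FixedBy H) :
    a.FixedBy K := fun g hg => h g (hK hg)

end Name

variable (P) in
/-- hereditarily symmetric names -/
def HSN : Type 1 := {a : Name P // a.HS F}

namespace HSN

variable {F}

instance : CoeOut (HSN P F) (Name P) := ⟨Subtype.val⟩

instance : SMul Gr (HSN P F) := ⟨fun g a => ⟨g • a.1, a.2.smul g⟩⟩

@[simp] theorem coe_smul (g : Gr) (a : HSN P F) : (g • a).1 = g • a.1 := rfl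

instance : MulAction Gr (HSN P F) where
  one_smul a := Subtype.ext (one_smul _ _)
  mul_smul g h a := Subtype.ext (mul_smul _ _ _)

/-- a constituent -/
def cst (a : HSN P F) (i : a.1.ι) : HSN P F := ⟨a.1.val i, ((Name.hs_iff a.1).1 a.2).2 i⟩

theorem exists_fixed (a : HSN P F) : ∃ H, F.Big H ∧ a.1.FixedBy H :=
  ((Name.hs_iff a.1).1 a.2).1

end HSN

/-! ### the forcing relation -/

/-- the forcing relation (quantifiers range over the hereditarily symmetric names) -/
def Fm.Frc {F : NFilter Gr} : Fm → P → (ℕ → HSN P F) → Prop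
  | .mem i j, p, v => Name.memF (v i).1 (v j).1 p
  | .eq i j, p, v => Name.eqF (v i).1 (v j).1 p
  | .neg φ, p, v => ∀ q ≤ p, ¬ φ.Frc q v
  | .and φ ψ, p, v => φ.Frc p v ∧ ψ.Frc p v
  | .all φ, p, v => ∀ x : HSN P F, φ.Frc p (cons x v)

variable {F}

theorem frc_mono (φ : Fm) {p q : P} (h : q ≤ p) {v : ℕ → HSN P F} (hp : φ.Frc p v) :
    φ.Frc q v := by
  induction φ generalizing v with
  | mem i j => exact Name.memF_mono h hp
  | eq i j => exact Name.eqF_mono h hp
  | neg φ ih => exact fun r hr => hp r (hr.trans h)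
  | and φ ψ h₁ h₂ => exact ⟨h₁ hp.1, h₂ hp.2⟩
  | all φ ih => exact fun x => ih (hp x)

theorem frc_dense (φ : Fm) {p : P} {v : ℕ → HSN P F} (h : ∀ q ≤ p, ∃ r ≤ q, φ.Frc r v) :
    φ.Frc p v := by
  induction φ generalizing v with
  | mem i j => exact Name.memF_dense h
  | eq i j => exact Name.eqF_dense h
  | neg φ ih =>
    intro q hq hf
    obtain ⟨r, hr, hn⟩ := h q hq
    exact hn r le_rfl (frc_mono φ hr hf)
  | and φ ψ h₁ h₂ =>
    exact ⟨h₁ fun q hq => (h q hq).imp fun r hr => ⟨hr.1, hr.2.1⟩,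
      h₂ fun q hq => (h q hq).imp fun r hr => ⟨hr.1, hr.2.2⟩⟩
  | all φ ih => exact fun x => ih fun q hq => (h q hq).imp fun r hr => ⟨hr.1, hr.2 x⟩

theorem frc_congr (φ : Fm) {p : P} {v w : ℕ → HSN P F} (h : ∀ n, Name.eqF (v n).1 (w n).1 p)
    (hv : φ.Frc p v) : φ.Frc p w := by
  induction φ generalizing v w p with
  | mem i j =>
    exact Name.memF_congr_right (h j) (Name.memF_congr_left (h i) hv)
  | eq i j => exact Name.eqF_trans (Name.eqF_symm (h i)) (Name.eqF_trans hv (h j))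
  | neg φ ih =>
    intro q hq hf
    exact hv q hq (ih (fun n => Name.eqF_symm (Name.eqF_mono hq (h n))) hf)
  | and φ ψ h₁ h₂ => exact ⟨h₁ h hv.1, h₂ h hv.2⟩
  | all φ ih =>
    intro x
    refine ih (v := cons x v) ?_ (hv x)
    rintro (_ | n)
    · exact Name.eqF_refl _ _
    · exact h n

theorem frc_smul (φ : Fm) (g : Gr) {p : P} {v : ℕ → HSN P F} (h : φ.Frc p v) :
    φ.Frc (g • p) (fun n => g • v n) := by
  have key : ∀ (φ : Fm), (∀ (g : Gr) {p : P} {v : ℕ → HSN P F}, φ.Frc p v →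
      φ.Frc (g • p) (fun n => g • v n)) := by
    intro φ
    induction φ with
    | mem i j => intro g p v h; exact Name.memF_smul g h
    | eq i j => intro g p v h; exact Name.eqF_smul g h
    | neg φ ih =>
      intro g p v h q hq hf
      have h1 := ih g⁻¹ hf
      refine h (g⁻¹ • q) ((le_smul_iff g).1 hq) ?_
      simpa using h1
    | and φ ψ h₁ h₂ => intro g p v h; exact ⟨h₁ g h.1, h₂ g h.2⟩
    | all φ ih =>
      intro g p v h x
      have h1 := ih g (h (g⁻¹ • x))
      have h2 : (fun n => g • cons (g⁻¹ • x) v n) = cons x (fun n => g • v n) := by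
        funext n
        cases n with
        | zero => simp [cons]
        | succ n => rfl
      rwa [h2] at h1
  exact key φ g h

theorem frc_smul_iff (φ : Fm) (g : Gr) {p : P} {v : ℕ → HSN P F} :
    φ.Frc (g • p) (fun n => g • v n) ↔ φ.Frc p v := by
  constructor
  · intro h
    have := frc_smul φ g⁻¹ h
    simpa using this
  · exact frc_smul φ g

end Pool.Agent.Helper9.Sym
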