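import Pool.Agent.Helper9.Sym.Names

/-!
Operations on hereditarily symmetric names: pairs, unions, separation, power sets, collection.
-/

namespace Pool.Agent.Helper9.Sym

/-- bound for the free variables -/
def Fm.bd : Fm → ℕ
  | .mem i j => max i j + 1
  | .eq i j => max i j + 1
  | .neg φ => φ.bd
  | .and φ ψ => max φ.bd ψ.bd
  | .all φ => φ.bd

variable {P : Type} [PartialOrder P] [OrderTop P] {Gr : Type} [Group Gr] [OrderAct P Gr]
  {F : NFilter Gr}

omit [OrderTop P] in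
theorem frc_congr' (φ : Fm) {p : P} {v w : ℕ → HSN P F}
    (h : ∀ n < φ.bd, Name.eqF (v n).1 (w n).1 p) (hv : φ.Frc p v) : φ.Frc p w := by
  induction φ generalizing v w p with
  | mem i j =>
    exact Name.memF_congr_right (h j (by simp [Fm.bd])) (Name.memF_congr_left
      (h i (by simp [Fm.bd])) hv)
  | eq i j =>
    exact Name.eqF_trans (Name.eqF_symm (h i (by simp [Fm.bd])))
      (Name.eqF_trans hv (h j (by simp [Fm.bd])))
  | neg φ ih =>
    intro q hq hf
    exact hv q hq (ih (fun n hn => Name.eqF_symm (Name.eqF_mono hq (h n hn))) hf)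
  | and φ ψ h₁ h₂ =>
    exact ⟨h₁ (fun n hn => h n (lt_of_lt_of_le hn (le_max_left _ _))) hv.1,
      h₂ (fun n hn => h n (lt_of_lt_of_le hn (le_max_right _ _))) hv.2⟩
  | all φ ih =>
    intro x
    refine ih (v := cons x v) ?_ (hv x)
    rintro (_ | n) hn
    · exact Name.eqF_refl _ _
    · exact h n (by simp only [Fm.bd]; omega)

omit [OrderTop P] in
theorem frc_local (φ : Fm) {p : P} {v w : ℕ → HSN P F} (h : ∀ n < φ.bd, v n = w n) :
    φ.Frc p v ↔ φ.Frc p w :=
  ⟨frc_congr' φ fun n hn => by rw [h n hn]; exact Name.eqF_refl _ _,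
   frc_congr' φ fun n hn => by rw [h n hn]; exact Name.eqF_refl _ _⟩

theorem smul_top' (g : Gr) : g • (⊤ : P) = ⊤ := by
  rw [← top_le_iff, le_smul_iff]
  exact le_top

omit [OrderTop P] in
/-- extensionality for names with hereditarily symmetric constituents -/
theorem eqF_of_mem {a b : Name P} {p : P} (ha : ∀ i, (a.val i).HS F) (hb : ∀ i, (b.val i).HS F)
    (h : ∀ x : HSN P F, ∀ q ≤ p, Name.memF x.1 a q ↔ Name.memF x.1 b q) : Name.eqF a b p := by
  rw [Name.eqF_iff]
  exact ⟨fun i q hq hqi => (h ⟨a.val i, ha i⟩ q hq).1 (Name.memF_val i hqi),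
    fun j q hq hqj => (h ⟨b.val j, hb j⟩ q hq).2 (Name.memF_val j hqj)⟩

omit [OrderTop P] in
theorem hs_val_smul {a : Name P} (ha : ∀ i, (a.val i).HS F) (g : Gr) :
    ∀ i, ((g • a).val i).HS F := by
  cases a with
  | mk ι v c =>
    intro i
    exact (ha i).smul g

omit [OrderTop P] in
theorem memF_smul' (g : Gr) {a b : Name P} {p : P} :
    Name.memF a (g • b) p ↔ Name.memF (g⁻¹ • a) b (g⁻¹ • p) := by
  rw [← Name.memF_smul_iff g⁻¹ (a := a)]
  simp

omit [OrderTop P] in
theorem frc_smul' (φ : Fm) (g : Gr) {p : P} {v : ℕ → HSN P F} :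
    φ.Frc (g⁻¹ • p) v ↔ φ.Frc p (fun n => g • v n) := by
  rw [← frc_smul_iff φ g]
  simp

omit [OrderTop P] in
theorem exists_fixed_upto (v : ℕ → HSN P F) (n : ℕ) :
    ∃ H, F.Big H ∧ ∀ m < n, (v m).1.FixedBy H := by
  induction n with
  | zero => exact ⟨⊤, F.top, fun m hm => by omega⟩
  | succ n ih =>
    obtain ⟨H, hH, hf⟩ := ih
    obtain ⟨K, hK, hk⟩ := (v n).exists_fixed
    refine ⟨H ⊓ K, F.inf hH hK, fun m hm => ?_⟩
    rcases Nat.lt_succ_iff_lt_or_eq.1 hm with hm | rfl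
    · exact (hf m hm).mono inf_le_left
    · exact hk.mono inf_le_right

/-! ### the empty name -/

/-- the empty set -/
def emp : HSN P F := ⟨.mk Empty Empty.elim Empty.elim,
  ⟨⊤, F.top, fun _ _ _ => ⟨fun i => i.elim, fun i => i.elim⟩⟩, fun i => i.elim⟩

/-! ### subsets and separation -/

/-- the subset of `a` given by a set of pairs -/
def subN (a : HSN P F) (S : Set (a.1.ι × P)) : Name P :=
  .mk {x : a.1.ι × P // x ∈ S ∧ x.2 ≤ a.1.cond x.1} (fun x => a.1.val x.1.1) (fun x => x.1.2)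

/-- `{x ∈ a : φ(x, v)}` -/
def sepN (φ : Fm) (a : HSN P F) (v : ℕ → HSN P F) : Name P :=
  subN a {x | φ.Frc x.2 (cons (a.cst x.1) v)}

omit [OrderTop P] in
theorem hs_val_subN (a : HSN P F) (S : Set (a.1.ι × P)) : ∀ i, ((subN a S).val i).HS F :=
  fun i => (a.cst i.1.1).2

omit [OrderTop P] in
theorem memF_sepN {φ : Fm} {a : HSN P F} {v : ℕ → HSN P F} {x : HSN P F} {p : P} :
    Name.memF x.1 (sepN φ a v) p ↔ Name.memF x.1 a.1 p ∧ φ.Frc p (cons x v) := by
  constructor
  · intro h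
    constructor
    · intro q hq
      obtain ⟨r, hr, ⟨⟨i, s⟩, h1, h2⟩, h3, h4⟩ := h q hq
      exact ⟨r, hr, i, le_trans h3 h2, h4⟩
    · apply frc_dense
      intro q hq
      obtain ⟨r, hr, ⟨⟨i, s⟩, h1, h2⟩, h3, h4⟩ := h q hq
      refine ⟨r, hr, frc_congr φ (v := cons (a.cst i) v) ?_ (frc_mono φ h3 h1)⟩
      rintro (_ | n)
      · exact Name.eqF_symm h4
      · exact Name.eqF_refl _ _
  · rintro ⟨h1, h2⟩ q hq
    obtain ⟨r, hr, i, h3, h4⟩ := h1 q hq
    refine ⟨r, hr, ⟨⟨i, r⟩, ?_, h3⟩, le_rfl, h4⟩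
    refine frc_congr φ (v := cons x v) ?_ (frc_mono φ (hr.trans hq) h2)
    rintro (_ | n)
    · exact h4
    · exact Name.eqF_refl _ _

omit [OrderTop P] in
theorem fixedBy_sepN {φ : Fm} {a : HSN P F} {v : ℕ → HSN P F} {H : Subgroup Gr}
    (ha : a.1.FixedBy H) (hv : ∀ n < φ.bd, (v n).1.FixedBy H) : (sepN φ a v).FixedBy H := by
  intro g hg p
  refine eqF_of_mem (F := F) (hs_val_smul (hs_val_subN _ _) g) (hs_val_subN _ _) fun x q _ => ?_
  rw [memF_smul']
  have h1 := memF_sepN (φ := φ) (a := a) (v := v) (x := g⁻¹ • x) (p := g⁻¹ • q)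
  rw [HSN.coe_smul] at h1
  rw [h1, memF_sepN, ← memF_smul', frc_smul' φ g]
  refine and_congr ?_ ?_
  · exact ⟨Name.memF_congr_right (ha g hg q), Name.memF_congr_right (Name.eqF_symm (ha g hg q))⟩
  · have h2 : (fun n => g • cons (g⁻¹ • x) v n) = cons x (fun n => g • v n) := by
      funext n
      cases n with
      | zero => simp [cons]
      | succ n => rfl
    rw [h2]
    constructor
    · apply frc_congr'
      rintro (_ | n) hn
      · exact Name.eqF_refl _ _
      · exact hv n (by omega) g hg q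
    · apply frc_congr'
      rintro (_ | n) hn
      · exact Name.eqF_refl _ _
      · exact Name.eqF_symm (hv n (by omega) g hg q)

omit [OrderTop P] in
theorem hs_sepN (φ : Fm) (a : HSN P F) (v : ℕ → HSN P F) : (sepN φ a v).HS F := by
  refine (Name.hs_iff _).2 ⟨?_, hs_val_subN _ _⟩
  obtain ⟨H, hH, ha⟩ := a.exists_fixed
  obtain ⟨K, hK, hv⟩ := exists_fixed_upto v φ.bd
  exact ⟨H ⊓ K, F.inf hH hK, fixedBy_sepN (ha.mono inf_le_left)
    fun n hn => (hv n hn).mono inf_le_right⟩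

/-- separation as an operation on hereditarily symmetric names -/
def sep (φ : Fm) (a : HSN P F) (v : ℕ → HSN P F) : HSN P F := ⟨sepN φ a v, hs_sepN φ a v⟩

/-! ### unordered pairs -/

/-- unordered pair -/
def pairN (a b : Name P) : Name P := .mk Bool (fun t => cond t a b) (fun _ => ⊤)

theorem smul_pairN (g : Gr) (a b : Name P) : g • pairN a b = pairN (g • a) (g • b) := by
  rw [pairN, Name.smul_mk, pairN]
  congr 1
  · funext t; cases t <;> rfl
  · funext t; exact smul_top' g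

omit [OrderAct P Gr] in
theorem eqF_pairN {a b a' b' : Name P} {p : P} (ha : Name.eqF a a' p) (hb : Name.eqF b b' p) :
    Name.eqF (pairN a b) (pairN a' b') p := by
  constructor
  · rintro (_ | _) q hq _
    · exact ⟨q, le_rfl, false, le_top, Name.eqF_mono hq hb⟩
    · exact ⟨q, le_rfl, true, le_top, Name.eqF_mono hq ha⟩
  · rintro (_ | _) q hq _
    · exact ⟨q, le_rfl, false, le_top, Name.eqF_mono hq hb⟩
    · exact ⟨q, le_rfl, true, le_top, Name.eqF_mono hq ha⟩

theorem fixedBy_pairN {a b : Name P} {H : Subgroup Gr} (ha : a.FixedBy H) (hb : b.FixedBy H) :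
    (pairN a b).FixedBy H := by
  intro g hg p
  rw [smul_pairN]
  exact eqF_pairN (ha g hg p) (hb g hg p)

/-- unordered pair as an operation on hereditarily symmetric names -/
def pr (a b : HSN P F) : HSN P F := ⟨pairN a.1 b.1, by
  refine ⟨?_, ?_⟩
  · obtain ⟨H, hH, ha⟩ := a.exists_fixed
    obtain ⟨K, hK, hb⟩ := b.exists_fixed
    exact ⟨H ⊓ K, F.inf hH hK, fixedBy_pairN (ha.mono inf_le_left) (hb.mono inf_le_right)⟩
  · rintro (_ | _)
    · exact b.2
    · exact a.2⟩

/-! ### unions -/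

/-- union -/
def unionN (a : Name P) : Name P :=
  .mk (Σ i : a.ι, {x : (a.val i).ι × P // x.2 ≤ a.cond i ∧ x.2 ≤ (a.val i).cond x.1})
    (fun y => (a.val y.1).val y.2.1.1) (fun y => y.2.1.2)

omit [OrderTop P] in
theorem hs_val_unionN (a : HSN P F) : ∀ i, ((unionN a.1).val i).HS F :=
  fun i => ((a.cst i.1).cst i.2.1.1).2

omit [OrderTop P] in
theorem memF_unionN {a : HSN P F} {x : HSN P F} {p : P} : Name.memF x.1 (unionN a.1) p ↔
    ∀ q ≤ p, ∃ r ≤ q, ∃ y : HSN P F, Name.memF y.1 a.1 r ∧ Name.memF x.1 y.1 r := by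
  constructor
  · intro h q hq
    obtain ⟨r, hr, ⟨i, ⟨⟨j, s⟩, h1, h2⟩⟩, h3, h4⟩ := h q hq
    refine ⟨r, hr, a.cst i, Name.memF_val i (le_trans h3 h1), ?_⟩
    exact Name.memF_congr_left (Name.eqF_symm h4)
      (Name.memF_val (a := a.1.val i) j (le_trans h3 h2))
  · intro h q hq
    obtain ⟨r, hr, y, h1, h2⟩ := h q hq
    obtain ⟨s, hs, i, h3, h4⟩ := h1 r le_rfl
    have h5 := Name.memF_congr_right h4 (Name.memF_mono hs h2)
    obtain ⟨t, ht, j, h6, h7⟩ := h5 s le_rfl
    exact ⟨t, ht.trans (hs.trans hr), ⟨i, ⟨⟨j, t⟩, ht.trans h3, h6⟩⟩, le_rfl, h7⟩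

omit [OrderTop P] in
theorem fixedBy_unionN {a : HSN P F} {H : Subgroup Gr} (ha : a.1.FixedBy H) :
    (unionN a.1).FixedBy H := by
  intro g hg p
  refine eqF_of_mem (F := F) (hs_val_smul (hs_val_unionN _) g) (hs_val_unionN _) fun x q _ => ?_
  rw [memF_smul']
  have h1 := memF_unionN (a := a) (x := g⁻¹ • x) (p := g⁻¹ • q)
  rw [HSN.coe_smul] at h1
  rw [h1, memF_unionN]
  constructor
  · intro h s hs
    obtain ⟨r, hr, y, h2, h3⟩ := h (g⁻¹ • s) (OrderAct.smul_mono g⁻¹ hs)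
    refine ⟨g • r, ?_, g • y, ?_, ?_⟩
    · have := OrderAct.smul_mono g hr; simpa using this
    · exact Name.memF_congr_right (ha g hg _) (Name.memF_smul g h2)
    · have := Name.memF_smul g h3; simpa using this
  · intro h s hs
    obtain ⟨r, hr, y, h2, h3⟩ := h (g • s) (by
      have := OrderAct.smul_mono g hs; simpa using this)
    refine ⟨g⁻¹ • r, ?_, g⁻¹ • y, ?_, ?_⟩
    · have := OrderAct.smul_mono g⁻¹ hr; simpa using this
    · have h4 := Name.memF_congr_right (Name.eqF_symm (ha g hg r)) h2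
      have := Name.memF_smul g⁻¹ h4; simpa using this
    · exact Name.memF_smul g⁻¹ h3

/-- union as an operation on hereditarily symmetric names -/
def un (a : HSN P F) : HSN P F := ⟨unionN a.1, by
  refine (Name.hs_iff _).2 ⟨?_, hs_val_unionN _⟩
  obtain ⟨H, hH, ha⟩ := a.exists_fixed
  exact ⟨H, hH, fixedBy_unionN ha⟩⟩

/-! ### power sets -/

/-- power set -/
def powN (a : HSN P F) : Name P :=
  .mk {S : Set (a.1.ι × P) // (subN a S).HS F} (fun S => subN a S.1) (fun _ => ⊤)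

omit [OrderTop P] in
theorem memF_subN {a : HSN P F} {S : Set (a.1.ι × P)} {x : Name P} {p : P}
    (h : Name.memF x (subN a S) p) : Name.memF x a.1 p := by
  intro q hq
  obtain ⟨r, hr, ⟨⟨i, s⟩, h1, h2⟩, h3, h4⟩ := h q hq
  exact ⟨r, hr, i, le_trans h3 h2, h4⟩

theorem memF_powN {a x : HSN P F} {p : P} : Name.memF x.1 (powN a) p ↔
    ∀ y : HSN P F, ∀ q ≤ p, Name.memF y.1 x.1 q → Name.memF y.1 a.1 q := by
  constructor
  · intro h y q hq hy
    apply Name.memF_dense
    intro s hs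
    obtain ⟨r, hr, ⟨S, hS⟩, -, h4⟩ := h s (hs.trans hq)
    exact ⟨r, hr, memF_subN (Name.memF_congr_right h4 (Name.memF_mono (hr.trans hs) hy))⟩
  · intro h q hq
    have hS := hs_sepN (F := F) (.mem 0 1) a (cons x fun _ => emp)
    refine ⟨q, le_rfl, ⟨_, hS⟩, le_top, ?_⟩
    refine eqF_of_mem (F := F) (fun i => (x.cst i).2) (hs_val_subN _ _) fun y r hr => ?_
    have h1 := memF_sepN (φ := .mem 0 1) (a := a) (v := cons x fun _ => emp) (x := y) (p := r)
    constructor
    · intro hy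
      exact h1.2 ⟨h y r (hr.trans hq) hy, hy⟩
    · intro hy
      exact (h1.1 hy).2

theorem hs_val_powN (a : HSN P F) : ∀ i, ((powN a).val i).HS F := fun i => i.2

theorem fixedBy_powN {a : HSN P F} {H : Subgroup Gr} (ha : a.1.FixedBy H) :
    (powN a).FixedBy H := by
  intro g hg p
  refine eqF_of_mem (F := F) (hs_val_smul (hs_val_powN _) g) (hs_val_powN _) fun x q _ => ?_
  rw [memF_smul']
  have h1 := memF_powN (a := a) (x := g⁻¹ • x) (p := g⁻¹ • q)
  rw [HSN.coe_smul] at h1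
  rw [h1, memF_powN]
  constructor
  · intro h y s hs hy
    have h2 := h (g⁻¹ • y) (g⁻¹ • s) (OrderAct.smul_mono g⁻¹ hs) (Name.memF_smul g⁻¹ hy)
    have h3 := Name.memF_smul g h2
    rw [HSN.coe_smul, smul_inv_smul, smul_inv_smul] at h3
    exact Name.memF_congr_right (ha g hg _) h3
  · intro h y s hs hy
    have hs' : g • s ≤ q := by have := OrderAct.smul_mono g hs; simpa using this
    have hy' : Name.memF (g • y).1 x.1 (g • s) := by
      have := Name.memF_smul g hy; simpa using this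
    have h2 := h (g • y) (g • s) hs' hy'
    have h3 := Name.memF_congr_right (Name.eqF_symm (ha g hg _)) h2
    exact (Name.memF_smul_iff g).1 h3

/-- power set as an operation on hereditarily symmetric names -/
def pw (a : HSN P F) : HSN P F := ⟨powN a, by
  refine (Name.hs_iff _).2 ⟨?_, hs_val_powN _⟩
  obtain ⟨H, hH, ha⟩ := a.exists_fixed
  exact ⟨H, hH, fixedBy_powN ha⟩⟩

/-! ### families closed under the whole group -/

/-- the family of all translates of given names -/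
def orbFam {ι : Type} (n : ι → HSN P F) : HSN P F :=
  ⟨.mk (Gr × ι) (fun x => x.1 • (n x.2).1) (fun _ => ⊤), by
    refine ⟨⟨⊤, F.top, fun g _ p => ?_⟩, fun x => (n x.2).2.smul x.1⟩
    rw [Name.smul_mk]
    constructor
    · rintro ⟨h, i⟩ q hq _
      refine ⟨q, le_rfl, ⟨g * h, i⟩, le_top, ?_⟩
      show Name.eqF (g • h • (n i).1) ((g * h) • (n i).1) q
      rw [mul_smul]
      exact Name.eqF_refl _ _
    · rintro ⟨h, i⟩ q hq _
      refine ⟨q, le_rfl, ⟨g⁻¹ * h, i⟩, by rw [smul_top']; exact le_top, ?_⟩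
      show Name.eqF (g • (g⁻¹ * h) • (n i).1) (h • (n i).1) q
      rw [← mul_smul]
      simp only [mul_inv_cancel_left]
      exact Name.eqF_refl _ _⟩

theorem fixedBy_orbFam {ι : Type} (n : ι → HSN P F) :
    (orbFam n).1.FixedBy (⊤ : Subgroup Gr) := by
  intro g _ p
  show Name.eqF (g • Name.mk (Gr × ι) (fun x => x.1 • (n x.2).1) (fun _ => ⊤))
    (Name.mk (Gr × ι) (fun x => x.1 • (n x.2).1) (fun _ => ⊤)) p
  rw [Name.smul_mk]
  constructor
  · rintro ⟨h, i⟩ q hq _
    refine ⟨q, le_rfl, ⟨g * h, i⟩, le_top, ?_⟩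
    show Name.eqF (g • h • (n i).1) ((g * h) • (n i).1) q
    rw [mul_smul]
    exact Name.eqF_refl _ _
  · rintro ⟨h, i⟩ q hq _
    refine ⟨q, le_rfl, ⟨g⁻¹ * h, i⟩, by rw [smul_top']; exact le_top, ?_⟩
    show Name.eqF (g • (g⁻¹ * h) • (n i).1) (h • (n i).1) q
    rw [← mul_smul]
    simp only [mul_inv_cancel_left]
    exact Name.eqF_refl _ _

theorem memF_orbFam {ι : Type} (n : ι → HSN P F) (i : ι) (p : P) :
    Name.memF (n i).1 (orbFam n).1 p := by
  intro q hq
  refine ⟨q, le_rfl, ⟨1, i⟩, le_top, ?_⟩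
  show Name.eqF (n i).1 ((1 : Gr) • (n i).1) q
  rw [one_smul]
  exact Name.eqF_refl _ _

open Classical in
/-- a witness for an existential formula, if there is one -/
noncomputable def wit (φ : Fm) (v : ℕ → HSN P F) (p : P) : HSN P F :=
  if h : ∃ x : HSN P F, φ.Frc p (cons x v) then h.choose else emp

omit [OrderTop P] in
theorem wit_spec {φ : Fm} {v : ℕ → HSN P F} {p : P} (h : ∃ x : HSN P F, φ.Frc p (cons x v)) :
    φ.Frc p (cons (wit φ v p) v) := by
  rw [wit, dif_pos h]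
  exact h.choose_spec

/-- collection -/
noncomputable def coll (φ : Fm) (a : HSN P F) (v : ℕ → HSN P F) : HSN P F :=
  orbFam (ι := a.1.ι × P) fun x => wit φ (cons (a.cst x.1) v) x.2

/-- the set of all translates of constituents -/
def orb (a : HSN P F) : HSN P F := orbFam (ι := a.1.ι) fun i => a.cst i

open Classical in
/-- a constituent of `b` forced by `p` to be equal to `a`, if there is one -/
noncomputable def pick (a b : HSN P F) (p : P) : HSN P F :=
  if h : ∃ j : b.1.ι, p ≤ b.1.cond j ∧ Name.eqF a.1 (b.1.val j) p then b.cst h.choose else emp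

omit [OrderTop P] in
theorem pick_spec {a b : HSN P F} {p : P}
    (h : ∃ j : b.1.ι, p ≤ b.1.cond j ∧ Name.eqF a.1 (b.1.val j) p) :
    ∃ j : b.1.ι, p ≤ b.1.cond j ∧ Name.eqF a.1 (b.1.val j) p ∧ pick a b p = b.cst j := by
  rw [pick, dif_pos h]
  exact ⟨h.choose, h.choose_spec.1, h.choose_spec.2, rfl⟩

end Pool.Agent.Helper9.Sym
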