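import Mathlib

/-!
Models of ZF: a type with a binary relation satisfying all axioms of ZF
(with the schemas of separation and replacement for all first-order formulas with parameters).
-/

namespace Pool.Agent.Helper9.Sym

/-- formulas of the language of set theory; variables are de Bruijn indices -/
inductive Fm
  | mem (i j : ℕ)
  | eq (i j : ℕ)
  | neg (φ : Fm)
  | and (φ ψ : Fm)
  | all (φ : Fm)

/-- put `x` in front of the sequence `v` -/
def cons {M : Type*} (x : M) (v : ℕ → M) : ℕ → M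
  | 0 => x
  | n + 1 => v n

/-- satisfaction of a formula in the structure with membership relation `E` -/
def Fm.Sat {M : Type*} (E : M → M → Prop) : Fm → (ℕ → M) → Prop
  | .mem i j, v => E (v i) (v j)
  | .eq i j, v => v i = v j
  | .neg φ, v => ¬ φ.Sat E v
  | .and φ ψ, v => φ.Sat E v ∧ ψ.Sat E v
  | .all φ, v => ∀ x, φ.Sat E (cons x v)

/-- the structure with membership relation `E` (`E x y` means `x ∈ y`) is a model of ZF -/
structure IsZF {M : Type*} (E : M → M → Prop) : Prop where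
  extensionality : ∀ a b, (∀ x, E x a ↔ E x b) → a = b
  foundation : ∀ a, (∃ x, E x a) → ∃ x, E x a ∧ ∀ y, E y x → ¬ E y a
  pairing : ∀ a b, ∃ c, ∀ x, E x c ↔ x = a ∨ x = b
  union : ∀ a, ∃ c, ∀ x, E x c ↔ ∃ y, E y a ∧ E x y
  powerset : ∀ a, ∃ c, ∀ x, E x c ↔ ∀ z, E z x → E z a
  infinity : ∃ w, (∃ e, (∀ z, ¬ E z e) ∧ E e w) ∧
    ∀ x, E x w → ∃ y, E y w ∧ ∀ z, E z y ↔ E z x ∨ z = x
  separation : ∀ (φ : Fm) (v : ℕ → M) (a : M), ∃ b, ∀ x, E x b ↔ E x a ∧ φ.Sat E (cons x v)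
  replacement : ∀ (φ : Fm) (v : ℕ → M) (a : M),
    (∀ x, E x a → ∃! y, φ.Sat E (cons y (cons x v))) →
    ∃ b, ∀ y, E y b ↔ ∃ x, E x a ∧ φ.Sat E (cons y (cons x v))

end Pool.Agent.Helper9.Sym
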